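import Mathlib

set_option autoImplicit false

namespace Pool.Agent.Results.MP_1790eb_nt.ResidueCount

open Finset Nat

/-- The set of residues of `1!, 2!, ..., (p-1)!` modulo `p`. -/
def facResidues (p : ℕ) : Finset (ZMod p) :=
  (Finset.Icc 1 (p - 1)).image (fun n => ((n ! : ℕ) : ZMod p))

section

variable {p : ℕ} [hp : Fact p.Prime]

theorem fac_ne_zero {n : ℕ} (hn : n < p) : ((n ! : ℕ) : ZMod p) ≠ 0 := by
  intro h
  rw [ZMod.natCast_eq_zero_iff] at h
  exact absurd ((hp.out.dvd_factorial).mp h) (not_le.mpr hn)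

/-- Reflection: `n! (p-1-n)! = (-1)^(n+1)` modulo `p`. -/
theorem reflect (n m : ℕ) (h : n + m = p - 1) :
    ((n ! : ℕ) : ZMod p) * ((m ! : ℕ) : ZMod p) = (-1) ^ (n + 1) := by
  have hp1 := hp.out.one_lt
  induction n generalizing m with
  | zero =>
    have : m = p - 1 := by omega
    subst this
    simp [ZMod.wilsons_lemma]
  | succ n ih =>
    have h1 := ih (m + 1) (by omega)
    have h2 : ((m + 1 : ℕ) : ZMod p) = -((n + 1 : ℕ) : ZMod p) := by
      rw [eq_neg_iff_add_eq_zero, ← Nat.cast_add, ZMod.natCast_eq_zero_iff]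
      exact ⟨1, by omega⟩
    rw [Nat.factorial_succ m, Nat.cast_mul, h2] at h1
    rw [Nat.factorial_succ n, Nat.cast_mul, pow_succ (-1 : ZMod p) (n + 1), ← h1]
    ring

theorem prod_nonzero : ∏ x ∈ (univ : Finset (ZMod p)).erase 0, x = -1 := by
  have h := ZMod.prod_Ico_one_prime p
  rw [← h]
  symm
  apply Finset.prod_bij (fun (n : ℕ) _ => (n : ZMod p))
  · intro n hn
    rw [mem_Ico] at hn
    refine mem_erase.mpr ⟨?_, mem_univ _⟩
    intro h0
    rw [ZMod.natCast_eq_zero_iff] at h0
    exact absurd (Nat.le_of_dvd (by omega) h0) (by omega)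
  · intro a ha b hb hab
    rw [mem_Ico] at ha hb
    rw [ZMod.natCast_eq_natCast_iff'] at hab
    rwa [Nat.mod_eq_of_lt ha.2, Nat.mod_eq_of_lt hb.2] at hab
  · intro b hb
    refine ⟨b.val, ?_, by simp⟩
    rw [mem_Ico]
    refine ⟨?_, ZMod.val_lt b⟩
    have : b.val ≠ 0 := by
      intro h0
      exact (mem_erase.mp hb).1 ((ZMod.val_eq_zero b).mp h0)
    omega
  · intro n _; rfl

/-- Product of the first `p` factorials. -/
theorem prod_fac (h : ℕ) (hh : p = 2 * h + 1) :
    ∏ n ∈ range p, ((n ! : ℕ) : ZMod p)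
      = (∏ n ∈ range h, (-1 : ZMod p) ^ (n + 1)) * ((h ! : ℕ) : ZMod p) := by
  have h1 : range p = range (h + 1 + h) := by rw [hh]; congr 1; ring
  rw [h1, prod_range_add, prod_range_succ]
  have h2 : ∏ x ∈ range h, (((h + 1 + x) ! : ℕ) : ZMod p)
      = ∏ x ∈ range h, (((p - 1 - x) ! : ℕ) : ZMod p) := by
    rw [← Finset.prod_range_reflect]
    apply prod_congr rfl
    intro x hx
    have hx' := mem_range.mp hx
    congr 2
    omega
  rw [h2]
  have h3 : ∏ n ∈ range h, (-1 : ZMod p) ^ (n + 1)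
      = ∏ n ∈ range h, (((n ! : ℕ) : ZMod p) * (((p - 1 - n) ! : ℕ) : ZMod p)) := by
    apply prod_congr rfl
    intro x hx
    have hx' := mem_range.mp hx
    rw [reflect x (p - 1 - x) (by omega)]
  rw [h3, prod_mul_distrib]
  ring

theorem sum_char_fac (h : ℕ) (hh : p = 2 * h + 1) (hneg : quadraticChar (ZMod p) (-1) = 1) :
    ∑ n ∈ range p, quadraticChar (ZMod p) ((n ! : ℕ) : ZMod p)
      = 2 * (∑ n ∈ range h, quadraticChar (ZMod p) ((n ! : ℕ) : ZMod p))
        + quadraticChar (ZMod p) ((h ! : ℕ) : ZMod p) := by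
  have h1 : range p = range (h + 1 + h) := by rw [hh]; congr 1; ring
  rw [h1, sum_range_add, sum_range_succ]
  have h2 : ∑ x ∈ range h, quadraticChar (ZMod p) (((h + 1 + x) ! : ℕ) : ZMod p)
      = ∑ x ∈ range h, quadraticChar (ZMod p) (((p - 1 - x) ! : ℕ) : ZMod p) := by
    rw [← Finset.sum_range_reflect]
    apply sum_congr rfl
    intro x hx
    have hx' := mem_range.mp hx
    congr 3
    omega
  have h3 : ∑ x ∈ range h, quadraticChar (ZMod p) (((p - 1 - x) ! : ℕ) : ZMod p)
      = ∑ x ∈ range h, quadraticChar (ZMod p) ((x ! : ℕ) : ZMod p) := by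
    apply sum_congr rfl
    intro x hx
    have hx' := mem_range.mp hx
    have h4 := congrArg (quadraticChar (ZMod p)) (reflect x (p - 1 - x) (by omega))
    rw [map_mul, map_pow, hneg, one_pow] at h4
    have hx0 : ((x ! : ℕ) : ZMod p) ≠ 0 := fac_ne_zero (by omega)
    have h5 := quadraticChar_sq_one hx0
    have : quadraticChar (ZMod p) ((x ! : ℕ) : ZMod p) *
        (quadraticChar (ZMod p) ((x ! : ℕ) : ZMod p) *
          quadraticChar (ZMod p) (((p - 1 - x) ! : ℕ) : ZMod p))
        = quadraticChar (ZMod p) ((x ! : ℕ) : ZMod p) := by rw [h4, mul_one]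
    rw [← mul_assoc, ← pow_two, h5, one_mul] at this
    exact this
  rw [h2, h3]
  ring

end

/-- If `p` is a prime for which the factorials miss exactly one nonzero residue (`|V_p| = p - 2`),
then exactly `(p+3)/4` of `0!, 1!, ..., ((p-3)/2)!` are quadratic residues modulo `p`. -/
theorem result (p : ℕ) (hp : p.Prime) (hext : (facResidues p).card = p - 2) :
    4 * {n : ℕ | n < (p - 1) / 2 ∧ IsSquare ((n ! : ℕ) : ZMod p)}.ncard = p + 3 := by
  classical
  have : Fact p.Prime := ⟨hp⟩
  -- small primes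
  have hp5 : 5 ≤ p := by
    by_contra hlt
    have hp2 := hp.two_le
    have : p = 2 ∨ p = 3 ∨ p = 4 := by omega
    rcases this with rfl | rfl | rfl
    · revert hext; decide
    · revert hext; decide
    · exact absurd hp (by decide)
  set f : ℕ → ZMod p := fun n => ((n ! : ℕ) : ZMod p) with hf
  obtain ⟨h, hh⟩ : ∃ h, p = 2 * h + 1 := by
    rcases hp.eq_two_or_odd' with h | h
    · omega
    · exact h
  have hh2 : (p - 1) / 2 = h := by omega
  have hh2' : 2 ≤ h := by omega
  have hring : ringChar (ZMod p) ≠ 2 := by rw [ZMod.ringChar_zmod_n]; omega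
  -- the coincidence f (p-2) = f 1
  have hf1 : f 1 = 1 := by simp [hf]
  have hfp2 : f (p - 2) = 1 := by
    have := reflect (p := p) 1 (p - 2) (by omega)
    simpa [hf] using this
  have hfp1 : f (p - 1) = -1 := by simp [hf, ZMod.wilsons_lemma]
  set D : Finset ℕ := (Icc 1 (p - 1)).erase (p - 2) with hD
  have hDmem : ∀ n, n ∈ D ↔ n ≠ p - 2 ∧ 1 ≤ n ∧ n ≤ p - 1 := by
    intro n; rw [hD, mem_erase, mem_Icc]
  have hDimg : D.image f = facResidues p := by
    apply Subset.antisymm
    · exact image_subset_image (erase_subset _ _)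
    · intro x hx
      obtain ⟨n, hn, rfl⟩ := mem_image.mp hx
      by_cases hn2 : n = p - 2
      · refine mem_image.mpr ⟨1, (hDmem 1).mpr ⟨by omega, by omega, by omega⟩, ?_⟩
        rw [hn2]
        exact hf1.trans hfp2.symm
      · exact mem_image.mpr ⟨n, (hDmem n).mpr ⟨hn2, (mem_Icc.mp hn).1, (mem_Icc.mp hn).2⟩, rfl⟩
  have hDcard : D.card = p - 2 := by
    rw [hD, card_erase_of_mem (mem_Icc.mpr ⟨by omega, by omega⟩), Nat.card_Icc]
    omega
  have hinj : Set.InjOn f D := by
    rw [← card_image_iff, hDimg, hext, hDcard]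
  -- the missing residue
  set V := facResidues p with hV
  have hVsub : V ⊆ (univ : Finset (ZMod p)).erase 0 := by
    intro x hx
    obtain ⟨n, hn, rfl⟩ := mem_image.mp hx
    refine mem_erase.mpr ⟨fac_ne_zero (by have := (mem_Icc.mp hn).2; omega), mem_univ _⟩
  have hcompl : (((univ : Finset (ZMod p)).erase 0) \ V).card = 1 := by
    rw [card_sdiff_of_subset hVsub, card_erase_of_mem (mem_univ _), Finset.card_univ, ZMod.card, hext]
    omega
  obtain ⟨u, hu⟩ := card_eq_one.mp hcompl
  have hunot : u ∉ V := by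
    have : u ∈ ((univ : Finset (ZMod p)).erase 0) \ V := by rw [hu]; exact mem_singleton_self u
    exact (mem_sdiff.mp this).2
  have hu0 : u ≠ 0 := by
    have : u ∈ ((univ : Finset (ZMod p)).erase 0) \ V := by rw [hu]; exact mem_singleton_self u
    exact (mem_erase.mp (mem_sdiff.mp this).1).1
  -- product over V and u
  have hprodV : (∏ x ∈ V, x) * u = -1 := by
    rw [← prod_nonzero (p := p), ← prod_sdiff hVsub, hu, prod_singleton, mul_comm]
  have hprodD : ∏ x ∈ V, x = ∏ n ∈ D, f n := by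
    rw [← hDimg, prod_image hinj]
  have hprodAll : ∏ n ∈ range p, f n = ∏ n ∈ D, f n := by
    have h1 : range p = insert 0 (insert (p - 2) D) := by
      ext n
      simp only [mem_range, mem_insert, hDmem]
      omega
    rw [h1, prod_insert, prod_insert, hfp2]
    · simp [hf]
    · simp [hDmem]
    · simp only [mem_insert, hDmem]; omega
  have hprod : (∏ n ∈ range h, (-1 : ZMod p) ^ (n + 1)) * f h * u = -1 := by
    rw [← prod_fac h hh, ← hprodV, hprodD, ← hprodAll]
  have hsq : f h * f h = (-1) ^ (h + 1) := reflect h h (by omega)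
  have hhD : h ∈ D := (hDmem h).mpr ⟨by omega, by omega, by omega⟩
  have hfh0 : f h ≠ 0 := fac_ne_zero (by omega)
  -- h is even
  have heven : Even h := by
    by_contra hodd
    rw [Nat.not_even_iff_odd] at hodd
    have h1 : (-1 : ZMod p) ^ (h + 1) = 1 := (hodd.add_one).neg_one_pow
    rw [h1] at hsq
    rcases mul_self_eq_one_iff.mp hsq with h2 | h2
    · have := hinj hhD ((hDmem 1).mpr ⟨by omega, by omega, by omega⟩) (h2.trans hf1.symm)
      omega
    · have := hinj hhD ((hDmem (p - 1)).mpr ⟨by omega, by omega, by omega⟩) (h2.trans hfp1.symm)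
      omega
  obtain ⟨k, hk⟩ := heven
  have hk' : h = 2 * k := by omega
  have hsq' : f h * f h = -1 := by
    rw [hsq, hk']
    exact (Odd.neg_one_pow ⟨k, rfl⟩)
  -- sign of the product
  have hsign : (∏ n ∈ range h, (-1 : ZMod p) ^ (n + 1)) = (-1) ^ k := by
    rw [hk']
    clear hprod hsq hsq' hhD hfh0 hh2 hh2' hk hk' hh
    induction k with
    | zero => simp
    | succ k ih =>
      rw [show 2 * (k + 1) = 2 * k + 1 + 1 by ring, prod_range_succ, prod_range_succ, ih]
      have e1 : (-1 : ZMod p) ^ (2 * k + 1) = -1 := Odd.neg_one_pow ⟨k, rfl⟩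
      have e2 : (-1 : ZMod p) ^ (2 * k + 1 + 1) = 1 := Even.neg_one_pow ⟨k + 1, by ring⟩
      rw [e1, e2, pow_succ]; ring
  -- u = (-1)^k f h
  have huv : u = (-1) ^ k * f h := by
    have h1 : (-1 : ZMod p) ^ k * (-1) ^ k = 1 := by
      rw [← pow_add, ← two_mul]; exact Even.neg_one_pow ⟨k, by ring⟩
    rw [hsign] at hprod
    have h2 : ((-1 : ZMod p) ^ k * f h) * (((-1) ^ k * f h) * u) = ((-1) ^ k * f h) * (-1) :=
      congrArg (fun z => ((-1 : ZMod p) ^ k * f h) * z) hprod
    have h3 : ((-1 : ZMod p) ^ k * f h) * (((-1) ^ k * f h) * u)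
        = ((-1) ^ k * (-1) ^ k) * (f h * f h) * u := by ring
    rw [h3, h1, hsq'] at h2
    linear_combination -h2
  have hkodd : Odd k := by
    by_contra hc
    rw [Nat.not_odd_iff_even] at hc
    rw [hc.neg_one_pow, one_mul] at huv
    exact hunot (by rw [huv, ← hDimg]; exact mem_image_of_mem f hhD)
  rw [hkodd.neg_one_pow, neg_one_mul] at huv
  -- quadratic characters
  have hneg : quadraticChar (ZMod p) (-1) = 1 := by
    rw [← hsq', map_mul, ← pow_two, quadraticChar_sq_one hfh0]
  have hchih : quadraticChar (ZMod p) (f h) = -1 := by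
    rw [quadraticChar_neg_one_iff_not_isSquare]
    rw [ZMod.euler_criterion p hfh0]
    have e1 : p / 2 = 2 * k := by omega
    rw [e1, pow_mul, pow_two, hsq', hkodd.neg_one_pow]
    intro hc
    have h2 : (2 : ZMod p) = 0 := by linear_combination -hc
    have h3 : ((2 : ℕ) : ZMod p) = 0 := by exact_mod_cast h2
    rw [ZMod.natCast_eq_zero_iff] at h3
    have := Nat.le_of_dvd (by norm_num) h3
    omega
  have hchiu : quadraticChar (ZMod p) u = -1 := by
    rw [huv, ← neg_one_mul, map_mul, hneg, hchih]; norm_num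
  -- the sum
  have hsum0 : ∑ x ∈ V, quadraticChar (ZMod p) x + quadraticChar (ZMod p) u = 0 := by
    have h1 := quadraticChar_sum_zero hring
    rw [← Finset.add_sum_erase univ _ (mem_univ (0 : ZMod p)), MulChar.map_zero, zero_add,
      ← sum_sdiff hVsub, hu, sum_singleton, add_comm] at h1
    exact h1
  have hsumD : ∑ x ∈ V, quadraticChar (ZMod p) x = ∑ n ∈ D, quadraticChar (ZMod p) (f n) := by
    rw [← hDimg, sum_image hinj]
  have hsumAll : ∑ n ∈ range p, quadraticChar (ZMod p) (f n)
      = 2 + ∑ n ∈ D, quadraticChar (ZMod p) (f n) := by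
    have h1 : range p = insert 0 (insert (p - 2) D) := by
      ext n
      simp only [mem_range, mem_insert, hDmem]
      omega
    rw [h1, sum_insert, sum_insert, hfp2]
    · simp [hf]; ring
    · simp [hDmem]
    · simp only [mem_insert, hDmem]; omega
  have hS := sum_char_fac h hh hneg
  have hS' : ∑ n ∈ range p, quadraticChar (ZMod p) (f n)
      = 2 * (∑ n ∈ range h, quadraticChar (ZMod p) (f n)) + quadraticChar (ZMod p) (f h) := hS
  rw [hsumAll, hchih] at hS'
  rw [hsumD, hchiu] at hsum0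
  have hS2 : ∑ n ∈ range h, quadraticChar (ZMod p) (f n) = 2 := by omega
  -- translate to a count
  have hval : ∀ n ∈ range h, quadraticChar (ZMod p) (f n)
      = 2 * (if IsSquare (f n) then 1 else 0) - 1 := by
    intro n hn
    have hn0 : f n ≠ 0 := fac_ne_zero (by have := mem_range.mp hn; omega)
    split_ifs with hs
    · rw [(quadraticChar_one_iff_isSquare hn0).mpr hs]; norm_num
    · rw [quadraticChar_neg_one_iff_not_isSquare.mpr hs]; norm_num
  rw [sum_congr rfl hval, sum_sub_distrib, ← mul_sum, sum_const, card_range, sum_boole] at hS2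
  rw [hh2]
  have hset : {n : ℕ | n < h ∧ IsSquare ((n ! : ℕ) : ZMod p)}
      = (((Finset.range h).filter (fun n => IsSquare (f n)) : Finset ℕ) : Set ℕ) := by
    ext n; simp [hf]
  rw [hset, Set.ncard_coe_finset]
  simp only [mul_one, nsmul_eq_mul] at hS2
  omega

end Pool.Agent.Results.MP_1790eb_nt.ResidueCount
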